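import Mathlib

namespace Pool.Agent.H11.Norm

open Topology Filter Metric

/-- The space of norms. -/
abbrev NS (d : ℕ) : Type := {f : C(Fin d → ℝ, ℝ) //
  (∀ x, f x = 0 → x = 0) ∧ (∀ x y, f (x + y) ≤ f x + f y) ∧ (∀ (c : ℝ) x, f (c • x) = |c| * f x)}

/-- The space of seminorms. -/
abbrev SS (d : ℕ) : Type := {f : C(Fin d → ℝ, ℝ) //
  (∀ x y, f (x + y) ≤ f x + f y) ∧ (∀ (c : ℝ) x, f (c • x) = |c| * f x)}

lemma baire_SS (d : ℕ) : BaireSpace (SS d) := by
  have hc : IsClosed {f : C(Fin d → ℝ, ℝ) |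
      (∀ x y, f (x + y) ≤ f x + f y) ∧ (∀ (c : ℝ) x, f (c • x) = |c| * f x)} := by
    have e : {f : C(Fin d → ℝ, ℝ) |
        (∀ x y, f (x + y) ≤ f x + f y) ∧ (∀ (c : ℝ) x, f (c • x) = |c| * f x)} =
        (⋂ x, ⋂ y, {f : C(Fin d → ℝ, ℝ) | f (x + y) ≤ f x + f y}) ∩
        (⋂ (c : ℝ), ⋂ x, {f : C(Fin d → ℝ, ℝ) | f (c • x) = |c| * f x}) := by
      ext f; simp
    rw [e]
    apply IsClosed.inter
    · refine isClosed_iInter fun x => isClosed_iInter fun y => ?_
      exact isClosed_le (by fun_prop) (by fun_prop)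
    · refine isClosed_iInter fun x => isClosed_iInter fun y => ?_
      exact isClosed_eq (by fun_prop) (by fun_prop)
  have h1 : TopologicalSpace.IsCompletelyPseudoMetrizableSpace C(Fin d → ℝ, ℝ) := inferInstance
  have h2 : TopologicalSpace.IsCompletelyPseudoMetrizableSpace (SS d) :=
    hc.isClosedEmbedding_subtypeVal.IsCompletelyPseudoMetrizableSpace
  infer_instance

lemma baire_NS (d : ℕ) : BaireSpace (NS d) := by
  have := baire_SS d
  let j : NS d → SS d := fun f => ⟨f.1, f.2.2⟩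
  have hj : IsOpenEmbedding j := by
    refine ⟨IsEmbedding.of_comp (g := Subtype.val) (by fun_prop) continuous_subtype_val
      IsEmbedding.subtypeVal, ?_⟩
    rw [isOpen_iff_mem_nhds]
    rintro _ ⟨f, rfl⟩
    have h1 : ∀ᶠ g : SS d in 𝓝 (j f), ∀ x ∈ sphere (0 : Fin d → ℝ) 1, g.1 x ≠ 0 := by
      apply (isCompact_sphere _ _).eventually_forall_of_forall_eventually
      intro x hx
      have hc : Continuous (fun z : SS d × (Fin d → ℝ) => z.1.1 z.2) := by fun_prop
      apply hc.continuousAt.eventually_ne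
      intro h0
      have := f.2.1 x h0
      rw [this] at hx
      simp at hx
    filter_upwards [h1] with g hg
    refine ⟨⟨g.1, fun x hx => ?_, g.2⟩, rfl⟩
    by_contra hne
    have hn : 0 < ‖x‖ := norm_pos_iff.2 hne
    apply hg (‖x‖⁻¹ • x)
    · simp [norm_smul, hn.ne']
    · rw [g.2.2, hx, mul_zero]
  exact hj.baireSpace

lemma NS.zero {d : ℕ} (N : NS d) : N.1 0 = 0 := by
  have := N.2.2.2 0 0
  simpa using this

lemma NS.neg {d : ℕ} (N : NS d) (x : Fin d → ℝ) : N.1 (-x) = N.1 x := by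
  have := N.2.2.2 (-1) x
  simpa using this

lemma NS.nonneg {d : ℕ} (N : NS d) (x : Fin d → ℝ) : 0 ≤ N.1 x := by
  have := N.2.2.1 x (-x)
  rw [add_neg_cancel, N.zero, N.neg] at this
  linarith

/-- Having `n` equidistant points. -/
def Equi {d : ℕ} (n : ℕ) (N : NS d) : Prop :=
  ∃ φ : Fin n → (Fin d → ℝ), ∀ u v, u ≠ v → N.1 (φ u - φ v) = 1

lemma eventually_not_equi {d n : ℕ} (N0 : NS d) (h : ¬ Equi (n + 1) N0) :
    ∀ᶠ N in 𝓝 N0, ¬ Equi (n + 1) N := by
  obtain ⟨c, hc, hc2⟩ : ∃ c : ℝ, 0 < c ∧ ∀ x ∈ sphere (0 : Fin d → ℝ) 1, c < N0.1 x := by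
    rcases (sphere (0 : Fin d → ℝ) 1).eq_empty_or_nonempty with h0 | h0
    · exact ⟨1, one_pos, by simp [h0]⟩
    · obtain ⟨x, hx, hmin⟩ := (isCompact_sphere (0 : Fin d → ℝ) 1).exists_isMinOn h0
        N0.1.continuous.continuousOn
      have hpos : 0 < N0.1 x := by
        rcases (N0.nonneg x).lt_or_eq with h1 | h1
        · exact h1
        · have := N0.2.1 x h1.symm
          rw [this] at hx; simp at hx
      refine ⟨N0.1 x / 2, by linarith, fun y hy => ?_⟩
      have : N0.1 x ≤ N0.1 y := hmin hy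
      linarith
  have h1 : ∀ᶠ g : NS d in 𝓝 N0, ∀ x ∈ sphere (0 : Fin d → ℝ) 1, c < g.1 x := by
    apply (isCompact_sphere _ _).eventually_forall_of_forall_eventually
    intro x hx
    have hc : Continuous (fun z : NS d × (Fin d → ℝ) => z.1.1 z.2) := by fun_prop
    exact continuousAt_const.eventually_lt hc.continuousAt (hc2 x hx)
  have h2 : ∀ᶠ g : NS d in 𝓝 N0, ∀ φ ∈ closedBall (0 : Fin (n + 1) → Fin d → ℝ) (1 / c),
      ∃ u v, u ≠ v ∧ g.1 (φ u - φ v) ≠ 1 := by
    apply (isCompact_closedBall _ _).eventually_forall_of_forall_eventually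
    intro φ _
    unfold Equi at h
    push Not at h
    obtain ⟨u, v, huv, hne⟩ := h φ
    have hc : Continuous (fun z : NS d × (Fin (n + 1) → Fin d → ℝ) => z.1.1 (z.2 u - z.2 v)) := by
      fun_prop
    filter_upwards [hc.continuousAt.eventually_ne (x := (N0, φ)) hne] with z hz
    exact ⟨u, v, huv, hz⟩
  filter_upwards [h1, h2] with N hN1 hN2
  rintro ⟨φ, hφ⟩
  obtain ⟨u, v, huv, hne⟩ := hN2 (fun u => φ u - φ 0) (by
    rw [mem_closedBall_zero_iff, pi_norm_le_iff_of_nonneg (by positivity)]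
    intro u
    by_cases hu : u = 0
    · simp [hu, hc.le]
    · have h3 := hφ u 0 hu
      set x := φ u - φ 0 with hx
      have hne : x ≠ 0 := by
        intro h0; rw [h0, N.zero] at h3; norm_num at h3
      have hn : 0 < ‖x‖ := norm_pos_iff.2 hne
      have h4 := hN1 (‖x‖⁻¹ • x) (by simp [norm_smul, hn.ne'])
      rw [N.2.2.2, h3, mul_one, abs_of_pos (by positivity)] at h4
      rw [le_div_iff₀ hc]
      rw [lt_inv_comm₀ hc hn] at h4
      have := mul_lt_mul_of_pos_right h4 hc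
      rw [inv_mul_cancel₀ hc.ne'] at this
      exact this.le)
  apply hne
  rw [sub_sub_sub_cancel_right]
  exact hφ u v huv

/-- The Euclidean norm. -/
noncomputable def euc : NS 3 :=
  ⟨⟨fun x => ‖(WithLp.toLp 2 x : EuclideanSpace ℝ (Fin 3))‖, by fun_prop⟩, by
    refine ⟨fun x hx => ?_, fun x y => ?_, fun c x => ?_⟩
    · simpa using hx
    · simpa using norm_add_le (WithLp.toLp 2 x : EuclideanSpace ℝ (Fin 3)) (WithLp.toLp 2 y)
    · simp [norm_smul]⟩

lemma euc_not : ¬ Equi 5 euc := by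
  rintro ⟨φ, hφ⟩
  let v : Fin 4 → EuclideanSpace ℝ (Fin 3) := fun i => WithLp.toLp 2 (φ i.succ - φ 0)
  have hn : ∀ i, ‖v i‖ = 1 := fun i => hφ i.succ 0 (Fin.succ_ne_zero i)
  have hd : ∀ i j, i ≠ j → ‖v i - v j‖ = 1 := fun i j hij => by
    have := hφ i.succ j.succ (fun h => hij (Fin.succ_injective _ h))
    simp only [v, ← WithLp.toLp_sub, sub_sub_sub_cancel_right]
    exact this
  have hi : ∀ i j, inner ℝ (v i) (v j) = if i = j then 1 else 1 / 2 := by
    intro i j
    split_ifs with h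
    · rw [h, real_inner_self_eq_norm_sq, hn]; norm_num
    · have := norm_sub_sq_real (v i) (v j)
      rw [hd i j h, hn, hn] at this
      linarith
  have hli : LinearIndependent ℝ v := by
    rw [Fintype.linearIndependent_iff]
    intro g hg
    have h0 : ∀ j, ∑ i, g i * inner ℝ (v i) (v j) = 0 := by
      intro j
      have : inner ℝ (∑ i, g i • v i) (v j) = 0 := by rw [hg, inner_zero_left]
      rw [sum_inner] at this
      simpa [inner_smul_left] using this
    have h1 := h0 0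
    have h2 := h0 1
    have h3 := h0 2
    have h4 := h0 3
    simp only [hi, Fin.sum_univ_four] at h1 h2 h3 h4
    simp at h1 h2 h3 h4
    intro i
    fin_cases i <;> simp <;> linarith
  have := hli.fintype_card_le_finrank
  simp at this

/-- The points. -/
def pq : Fin 5 → Fin 3 → ℚ := ![![0, 0, 1], ![0, 2, 0], ![1, 2, 2], ![2, 0, 2], ![2, 1, 0]]
/-- First endpoints. -/
def ea : Fin 10 → Fin 5 := ![0, 0, 0, 0, 1, 1, 1, 2, 2, 3]
/-- Second endpoints. -/
def eb : Fin 10 → Fin 5 := ![1, 2, 3, 4, 2, 3, 4, 3, 4, 4]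
/-- The functionals. -/
def Lq : Fin 10 → Fin 3 → ℚ :=
  ![![-1/7, -3/7, 1/7],
    ![-1/4, -1/4, -1/4],
    ![-3/7, -1/7, -1/7],
    ![-1/4, -1/4, 1/4],
    ![-1/7, -1/7, -3/7],
    ![-1/4, 1/4, 0],
    ![-3/7, 1/7, 1/7],
    ![-1/7, 3/7, 1/7],
    ![-1/4, 1/4, 1/4],
    ![-1/7, -1/7, 3/7]]
/-- The right inverse. -/
def Rq : Fin 5 → Fin 3 → Fin 10 → ℚ :=
  ![![![7/3, -2/3, -7/6, -8/3, 7/12, -6, 49/12, 7/12, -2/3, -161/12],
      ![-14/3, 4/3, -7/6, 10/3, -7/6, 12, -49/6, -7/6, 4/3, 49/3],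
      ![-7/3, 2/3, -7/3, 14/3, -7/12, 6, -49/12, -7/12, 2/3, 35/12]],
    ![![-7/6, 4/3, -7/6, 4/3, -7/6, 4, -14/3, -7/6, 4/3, 7/3],
      ![-7/6, 4/3, -7/6, 4/3, -7/6, 8, -14/3, -7/6, 4/3, 28/3],
      ![-7/3, 8/3, -7/3, 8/3, -7/3, 4, -7/3, -7/3, 8/3, -7/3]],
    ![![-7/3, 8/3, -7/3, 8/3, -7/12, 6, -49/12, -7/12, -4/3, 35/12],
      ![0, 0, 0, 0, 0, 0, 0, 7/2, -2, 7/2],
      ![-7/3, 8/3, -7/3, 8/3, -7/12, 6, -49/12, -49/12, 14/3, -7/12]],
    ![![0, 0, 0, 0, 0, 0, 0, 0, 0, -7],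
      ![0, 0, 0, 0, 0, 0, 0, 0, 0, 0],
      ![0, 0, 0, 0, 0, 0, 0, 0, 0, 0]],
    ![![0, 0, 0, 0, 0, 0, 0, 0, 0, 0],
      ![0, 0, 0, 0, 0, 0, 0, 0, 0, 0],
      ![0, 0, 0, 0, 0, 0, 0, 0, 0, 0]]]

lemma f1 : ∀ e f, ∑ c, Lq e c * (Rq (ea e) c f - Rq (eb e) c f) = if e = f then 1 else 0 := by
  decide +kernel

lemma f2 : ∀ e, ∑ c, Lq e c * (pq (ea e) c - pq (eb e) c) = 1 := by
  decide +kernel

lemma f3 : ∀ e f, f ≠ e → |∑ c, Lq f c * (pq (ea e) c - pq (eb e) c)| < 1 := by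
  decide +kernel

lemma f4 : ∀ u v : Fin 5, u ≠ v → ∃ e, (ea e = u ∧ eb e = v) ∨ (ea e = v ∧ eb e = u) := by
  decide +kernel

/-- The real functionals. -/
def ell (f : Fin 10) (x : Fin 3 → ℝ) : ℝ := ∑ c, (Lq f c : ℝ) * x c

/-- The perturbed points. -/
def X (y : Fin 10 → ℝ) (u : Fin 5) : Fin 3 → ℝ := fun c => pq u c + ∑ f, (Rq u c f : ℝ) * y f

/-- The perturbed differences. -/
def A (e : Fin 10) (y : Fin 10 → ℝ) : Fin 3 → ℝ := X y (ea e) - X y (eb e)

lemma cont_A (e : Fin 10) : Continuous (A e) := by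
  unfold A X; fun_prop

lemma cont_ell (e : Fin 10) : Continuous (ell e) := by
  unfold ell; fun_prop

lemma ell_A (e : Fin 10) (y : Fin 10 → ℝ) : ell e (A e y) = 1 + y e := by
  have h2 : ∑ c, (Lq e c : ℝ) * (pq (ea e) c - pq (eb e) c) = 1 := by exact_mod_cast f2 e
  have h1 : ∀ f, ∑ c, (Lq e c : ℝ) * (Rq (ea e) c f - Rq (eb e) c f) = if e = f then 1 else 0 := by
    intro f
    have := f1 e f
    split_ifs at this ⊢ <;> exact_mod_cast this
  have h3 : ∑ f, (∑ c, (Lq e c : ℝ) * (Rq (ea e) c f - Rq (eb e) c f)) * y f = y e := by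
    simp [h1]
  rw [← h2, ← h3]
  simp only [ell, A, X, Pi.sub_apply, Finset.sum_mul]
  rw [Finset.sum_comm, ← Finset.sum_add_distrib]
  apply Finset.sum_congr rfl
  intro c _
  rw [add_sub_add_comm, ← Finset.sum_sub_distrib, mul_add, Finset.mul_sum]
  congr 1
  apply Finset.sum_congr rfl
  intro f _
  ring

lemma ell_A0 (e f : Fin 10) (h : f ≠ e) : |ell f (A e 0)| < 1 := by
  have h3 : |∑ c, (Lq f c : ℝ) * (pq (ea e) c - pq (eb e) c)| < 1 := by exact_mod_cast f3 e f h
  simpa [ell, A, X] using h3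

lemma A_convex (e : Fin 10) (y z : Fin 10 → ℝ) (a b : ℝ) (hab : a + b = 1) :
    A e (a • y + b • z) = a • A e y + b • A e z := by
  funext c
  simp only [A, X, Pi.sub_apply, Pi.add_apply, Pi.smul_apply, smul_eq_mul, mul_add,
    Finset.sum_add_distrib]
  have h1 : ∀ (u : Fin 5) (t : ℝ) (w : Fin 10 → ℝ), ∑ f, (Rq u c f : ℝ) * (t * w f)
      = t * ∑ f, (Rq u c f : ℝ) * w f := by
    intro u t w
    rw [Finset.mul_sum]
    apply Finset.sum_congr rfl
    intro f _; ring
  simp only [h1]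
  obtain rfl : b = 1 - a := by linarith
  ring

/-- The polyhedral norm. -/
noncomputable def pol : NS 3 :=
  ⟨⟨fun x => ‖fun f => ell f x‖, by unfold ell; fun_prop⟩, by
    refine ⟨fun x hx => ?_, fun x y => ?_, fun c x => ?_⟩
    · have h0 : (fun f => ell f x) = 0 := by simpa using hx
      have h1 := congrFun h0 1
      have h2 := congrFun h0 2
      have h3 := congrFun h0 3
      simp [ell, Lq, Fin.sum_univ_three] at h1 h2 h3
      funext c
      fin_cases c <;> simp <;> linarith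
    · have : (fun f => ell f (x + y)) = (fun f => ell f x) + (fun f => ell f y) := by
        funext f; simp [ell, mul_add, Finset.sum_add_distrib]
      simp only [ContinuousMap.coe_mk, this]
      exact norm_add_le _ _
    · have : (fun f => ell f (c • x)) = c • (fun f => ell f x) := by
        funext f
        simp only [ell, Pi.smul_apply, smul_eq_mul, Finset.mul_sum]
        apply Finset.sum_congr rfl
        intro i _; ring
      simp only [ContinuousMap.coe_mk, this]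
      rw [norm_smul, Real.norm_eq_abs]⟩

lemma pol_local : ∃ r : ℝ, 0 < r ∧ ∀ y ∈ ball (0 : Fin 10 → ℝ) r, ∀ e, pol.1 (A e y) = 1 + y e := by
  have h1 : ∀ᶠ y in 𝓝 (0 : Fin 10 → ℝ), ∀ e f, f ≠ e → |ell f (A e y)| < 1 + y e := by
    rw [eventually_all]; intro e
    rw [eventually_all]; intro f
    by_cases h : f = e
    · simp [h]
    · have hc : Continuous (fun y => |ell f (A e y)|) := ((cont_ell f).comp (cont_A e)).abs
      have hc2 : Continuous (fun y : Fin 10 → ℝ => 1 + y e) := by fun_prop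
      filter_upwards [hc.continuousAt.eventually_lt (x₀ := 0) hc2.continuousAt
        (by simpa using ell_A0 e f h)] with y hy _
      exact hy
  have h2 : ∀ᶠ y in 𝓝 (0 : Fin 10 → ℝ), ∀ e, 0 < 1 + y e := by
    rw [eventually_all]; intro e
    have hc2 : Continuous (fun y : Fin 10 → ℝ => 1 + y e) := by fun_prop
    exact continuousAt_const.eventually_lt hc2.continuousAt (by simp)
  obtain ⟨r, hr, hr2⟩ := Metric.eventually_nhds_iff_ball.1 (h1.and h2)
  refine ⟨r, hr, fun y hy e => ?_⟩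
  obtain ⟨h3, h4⟩ := hr2 y hy
  apply le_antisymm
  · show ‖fun f => ell f (A e y)‖ ≤ _
    rw [pi_norm_le_iff_of_nonneg (h4 e).le]
    intro f
    by_cases h : f = e
    · rw [h, ell_A, Real.norm_eq_abs, abs_of_pos (h4 e)]
    · exact (h3 e f h).le
  · have := norm_le_pi_norm (fun f => ell f (A e y)) e
    rw [ell_A, Real.norm_eq_abs, abs_of_pos (h4 e)] at this
    exact this

lemma eventually_equi : ∀ᶠ N in 𝓝 pol, Equi 5 N := by
  obtain ⟨r, hr, hr2⟩ := pol_local
  have h1 : ∀ᶠ N : NS 3 in 𝓝 pol, ∀ y ∈ closedBall (0 : Fin 10 → ℝ) r, ∀ e,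
      |N.1 (A e y) - pol.1 (A e y)| < r / 8 := by
    apply (isCompact_closedBall _ _).eventually_forall_of_forall_eventually
    intro y _
    rw [eventually_all]; intro e
    have hA := cont_A e
    have hc : Continuous (fun z : NS 3 × (Fin 10 → ℝ) =>
        |z.1.1 (A e z.2) - pol.1 (A e z.2)|) := by fun_prop
    exact hc.continuousAt.eventually_lt continuousAt_const (by simpa using hr)
  filter_upwards [h1] with N hN
  let g : Fin 10 → (Fin 10 → ℝ) → ℝ := fun e y => N.1 (A e y) - (1 + y e)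
  have hb : ∀ e y, dist y 0 < r → |g e y| ≤ r / 8 := by
    intro e y hy
    have := hN y (mem_closedBall.2 hy.le) e
    rw [hr2 y hy e] at this
    exact this.le
  have hconv : ∀ e, ConvexOn ℝ (ball 0 r) (g e) := by
    intro e
    refine ⟨convex_ball _ _, fun y _ z _ a b ha hb hab => ?_⟩
    simp only [g, A_convex e y z a b hab, smul_eq_mul, Pi.add_apply, Pi.smul_apply]
    have h2 := N.2.2.1 (a • A e y) (b • A e z)
    rw [N.2.2.2, N.2.2.2, abs_of_nonneg ha, abs_of_nonneg hb] at h2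
    nlinarith
  have hlip : ∀ e, ∀ y ∈ closedBall (0 : Fin 10 → ℝ) (r / 4), ∀ z ∈ closedBall (0 : Fin 10 → ℝ) (r / 4),
      dist (g e y) (g e z) ≤ 1 / 2 * dist y z := by
    intro e y hy z hz
    have h2 := (hconv e).lipschitzOnWith_of_abs_le (ε := r / 2) (by positivity) (hb e)
    have h3 : closedBall (0 : Fin 10 → ℝ) (r / 4) ⊆ ball 0 (r - r / 2) :=
      closedBall_subset_ball (by linarith)
    have h4 := h2.dist_le_mul y (h3 hy) z (h3 hz)
    have h5 : 2 * (r / 8) / (r / 2) = 1 / 2 := by field_simp; norm_num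
    rw [h5, Real.coe_toNNReal _ (by norm_num)] at h4
    exact h4
  let T : (Fin 10 → ℝ) → (Fin 10 → ℝ) := fun y e => - g e y
  have hmaps : Set.MapsTo T (closedBall 0 (r / 4)) (closedBall 0 (r / 4)) := by
    intro y hy
    rw [mem_closedBall_zero_iff, pi_norm_le_iff_of_nonneg (by positivity)]
    intro e
    have := hb e y (lt_of_le_of_lt (mem_closedBall.1 hy) (by linarith))
    simp only [T, norm_neg, Real.norm_eq_abs]
    linarith
  have hcon : ContractingWith (1 / 2) (hmaps.restrict T _ _) := by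
    refine ⟨by norm_num, LipschitzWith.of_dist_le_mul fun y z => ?_⟩
    rw [Subtype.dist_eq, Subtype.dist_eq]
    simp only [Set.MapsTo.val_restrict_apply]
    rw [dist_pi_le_iff (by positivity)]
    intro e
    simp only [T, dist_neg_neg]
    simpa using hlip e y y.2 z z.2
  obtain ⟨y, -, hy, -⟩ := ContractingWith.exists_fixedPoint' isClosed_closedBall.isComplete hmaps hcon
    (x := 0) (mem_closedBall_self (by positivity)) (edist_ne_top _ _)
  have h2 : ∀ e, N.1 (A e y) = 1 := by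
    intro e
    have := congrFun hy e
    simp only [T, g] at this
    linarith
  refine ⟨X y, fun u v huv => ?_⟩
  obtain ⟨e, h | h⟩ := f4 u v huv
  · rw [← h.1, ← h.2]; exact h2 e
  · rw [← h.1, ← h.2, ← N.neg, neg_sub]; exact h2 e

lemma equi_iff {d n : ℕ} (N : NS d) : (∃ φ : Fin n → (Fin d → ℝ), Function.Injective φ ∧
    ∀ u v, (⊤ : SimpleGraph (Fin n)).Adj u v → N.1 (φ u - φ v) = 1) ↔ Equi n N := by
  constructor
  · rintro ⟨φ, -, h⟩
    exact ⟨φ, fun u v huv => h u v huv⟩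
  · rintro ⟨φ, h⟩
    refine ⟨φ, fun u v huv => ?_, fun u v huv => h u v huv⟩
    by_contra hne
    have := h u v hne
    rw [huv, sub_self, N.zero] at this
    norm_num at this

lemma not_residual_equi : {N : NS 3 | Equi 5 N} ∉ residual (NS 3) := by
  have := baire_NS 3
  intro h
  obtain ⟨N, h1, h2⟩ := (dense_of_mem_residual h).inter_nhds_nonempty
    (eventually_not_equi euc euc_not)
  exact h2 h1

lemma not_residual_not_equi : {N : NS 3 | ¬ Equi 5 N} ∉ residual (NS 3) := by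
  have := baire_NS 3
  intro h
  obtain ⟨N, h1, h2⟩ := (dense_of_mem_residual h).inter_nhds_nonempty eventually_equi
  exact h1 h2

end Pool.Agent.H11.Norm
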